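import Pool.Agent.Q113.XV.Stm

/-!
# Project XV: the piece `k = 4`, `m = 3` with a gain (after `W362/K5/P43.lean`)
-/

set_option autoImplicit false

namespace Pool.Agent.Q79.XV.P43

open Finset Filter Topology
open Pool.Agent.W205.K5 Pool.Agent.Q113.XV

/-- the linear core of the piece -/
lemma core (c0 c1 c2 c3 c4 w0 w1 w2 w3 g0 g1 g2 : ℝ) (hc0 : 0 ≤ c0) (hc3 : 1 / 10000 ≤ c3)
    (hc23 : c3 ≤ c2) (hc12 : c2 ≤ c1) (hsum : c0 + c1 + c2 + c3 + c4 = 1)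
    (hB : 81 / 256 * c0 + 27 / 64 * c1 + 9 / 16 * c2 + 3 / 4 * c3 + c4 = 1 - c0)
    (hF : 1 / 10000 ≤ 8 / 27 * c0 - 5 / 9 * c1 - 1 / 3 * c2)
    (h2 : g0 ≤ 81 / 64)
    (hch : 8 / 27 * (81 / 64 - g0) + 81 / 256 * (g0 - 8 / 9) ≤ w0 * (217 / 576))
    (l2 : 3 / 2 ≤ w2 + 5 / 12 * g2) (l1 : 9 / 17 ≤ w1 + 13 / 204 * g1)
    (a1 : g1 ≤ g0 + w1) (a2 : g2 ≤ g1 + w2) (a3 : 3 ≤ g2 + w3) :
    1 - c0 + 1 / 10000 * (w3 - 3 / 4) ≤ c0 * w0 + c1 * w1 + c2 * w2 + c3 * w3 + c4 := by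
  have P3 : 0 ≤ (c3 - 1 / 10000) * (g2 + w3 - 3) := mul_nonneg (by linarith) (by linarith)
  have P3' : 0 ≤ (c3 - 1 / 10000) * (g1 + w2 - g2) := mul_nonneg (by linarith) (by linarith)
  have P2 : 0 ≤ (c2 - c3) * (17 / 12 * w2 + 5 / 12 * g1 - 3 / 2) :=
    mul_nonneg (by linarith) (by linarith)
  have P1' : 0 ≤ (c3 - 1 / 10000 + 5 / 17 * (c2 - c3)) * (g0 + w1 - g1) :=
    mul_nonneg (by linarith) (by linarith)
  have P1 : 0 ≤ (c1 - (c3 + 5 / 17 * (c2 - c3))) * (217 / 204 * w1 + 13 / 204 * g0 - 9 / 17) :=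
    mul_nonneg (by linarith) (by linarith)
  have P0 : 0 ≤ c0 * (w0 * (217 / 576) - (8 / 27 * (81 / 64 - g0) + 81 / 256 * (g0 - 8 / 9))) :=
    mul_nonneg hc0 (by linarith)
  have PF : 0 ≤ (81 / 64 - g0) * (8 / 27 * c0 - 5 / 9 * c1 - 1 / 3 * c2 - 1 / 10000) :=
    mul_nonneg (by linarith) (by linarith)
  have e1 : g0 * (c0 + c1 + c2 + c3 + c4 - 1) = 0 := by rw [hsum]; ring
  have e2 : g0 * (81 / 256 * c0 + 27 / 64 * c1 + 9 / 16 * c2 + 3 / 4 * c3 + c4 - (1 - c0)) = 0 := by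
    rw [hB]; ring
  have s2 : 0 ≤ 17 / 12 * w2 + 5 / 12 * g1 - 3 / 2 := by linarith
  have s1 : 0 ≤ 217 / 204 * w1 + 13 / 204 * g0 - 9 / 17 := by linarith
  nlinarith [P3, P3', P2, P1', P1, P0, PF, e1, e2, s1, s2]

/-- localisation of the crossing -/
lemma loc (ρ : ℝ) (h0 : 0 < ρ) (hρ : ρ ^ 4 + (1 - ρ / 4) ^ 4 = 1) : 8927 / 10000 ≤ ρ := by
  by_contra hlt
  push Not at hlt
  have h : ρ * (257 / 256 * ρ ^ 3 - ρ ^ 2 / 16 + 3 / 8 * ρ - 1) = 0 := by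
    have : ρ ^ 4 + (1 - ρ / 4) ^ 4 - 1 =
      ρ * (257 / 256 * ρ ^ 3 - ρ ^ 2 / 16 + 3 / 8 * ρ - 1) := by ring
    rw [← this]; linarith
  have h2 : 257 / 256 * ρ ^ 3 - ρ ^ 2 / 16 + 3 / 8 * ρ - 1 = 0 := by
    rcases mul_eq_zero.mp h with h | h
    · linarith
    · exact h
  obtain ⟨s, hs⟩ : ∃ s : ℝ, s = 8927 / 10000 - ρ := ⟨_, rfl⟩
  have hs0 : 0 < s := by linarith
  have hs1 : s < 8927 / 10000 := by linarith
  have e : ρ = 8927 / 10000 - s := by linarith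
  have k1 : ρ ^ 2 < 1 := by nlinarith
  have key : 257 / 256 * ρ ^ 3 - ρ ^ 2 / 16 + 3 / 8 * ρ - 1 ≤
      257 / 256 * (8927 / 10000 : ℝ) ^ 3 - (8927 / 10000 : ℝ) ^ 2 / 16 + 3 / 8 * (8927 / 10000) - 1 := by
    have d : (257 / 256 * (8927 / 10000 : ℝ) ^ 3 - (8927 / 10000 : ℝ) ^ 2 / 16 +
        3 / 8 * (8927 / 10000) - 1) - (257 / 256 * ρ ^ 3 - ρ ^ 2 / 16 + 3 / 8 * ρ - 1) =
        s * (257 / 256 * ((8927 / 10000 : ℝ) ^ 2 + 8927 / 10000 * ρ + ρ ^ 2) -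
          (8927 / 10000 + ρ) / 16 + 3 / 8) := by
      rw [hs]; ring
    have : 0 ≤ s * (257 / 256 * ((8927 / 10000 : ℝ) ^ 2 + 8927 / 10000 * ρ + ρ ^ 2) -
          (8927 / 10000 + ρ) / 16 + 3 / 8) := by
      apply mul_nonneg hs0.le
      nlinarith [sq_nonneg ρ]
    linarith
  have num : 257 / 256 * (8927 / 10000 : ℝ) ^ 3 - (8927 / 10000 : ℝ) ^ 2 / 16 +
      3 / 8 * (8927 / 10000) - 1 < 0 := by norm_num
  linarith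

/-- upper localisation of the crossing -/
lemma locU (ρ : ℝ) (h0 : 0 < ρ) (hρ : ρ ^ 4 + (1 - ρ / 4) ^ 4 = 1) : ρ ≤ 9 / 10 := by
  by_contra hlt
  push Not at hlt
  have h : ρ * (257 / 256 * ρ ^ 3 - ρ ^ 2 / 16 + 3 / 8 * ρ - 1) = 0 := by
    have : ρ ^ 4 + (1 - ρ / 4) ^ 4 - 1 =
      ρ * (257 / 256 * ρ ^ 3 - ρ ^ 2 / 16 + 3 / 8 * ρ - 1) := by ring
    rw [← this]; linarith
  have h2 : 257 / 256 * ρ ^ 3 - ρ ^ 2 / 16 + 3 / 8 * ρ - 1 = 0 := by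
    rcases mul_eq_zero.mp h with h | h
    · linarith
    · exact h
  have h3 : (9 / 10 : ℝ) ^ 2 ≤ ρ ^ 2 := pow_le_pow_left₀ (by norm_num) hlt.le 2
  have h4 : (9 / 10 : ℝ) * ρ ^ 2 ≤ ρ * ρ ^ 2 := mul_le_mul_of_nonneg_right hlt.le (sq_nonneg _)
  norm_num at h3
  nlinarith

theorem t_P43s : S_LINE → S_CHORD → PIECEs 4 3 := by
  intro hL hC
  refine ⟨1 / 10000, by norm_num, ?_⟩
  intro w g hs h1 h2 ρ h0 h1' hρ
  have hmin : min (g 0) (w (4 - 1) - (1 - 1 / ((4 : ℕ) : ℝ))) ≤ w 3 - 3 / 4 := by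
    refine (min_le_right _ _).trans ?_
    norm_num
  have K3 : KK 3 = 8 / 9 := by unfold KK; norm_num
  have K4 : KK (3 + 1) = 81 / 64 := by unfold KK; norm_num
  have hch := hC 4 w g (by norm_num) hs 3 (by norm_num) (by norm_num) h1 h2
  rw [K3] at h1 hch
  rw [K4] at h2 hch
  have hch' : 8 / 27 * (81 / 64 - g 0) + 81 / 256 * (g 0 - 8 / 9) ≤ w 0 * (217 / 576) := by
    have e1 : (1 - 1 / ((3 : ℕ) : ℝ)) ^ 3 = 8 / 27 := by norm_num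
    have e2 : (1 - 1 / (((3 : ℕ) : ℝ) + 1)) ^ (3 + 1) = 81 / 256 := by norm_num
    have e3 : (81 / 64 - 8 / 9 : ℝ) = 217 / 576 := by norm_num
    rw [e1, e2, e3] at hch
    exact hch
  have l2 := hL 4 w g hs 2 (5 / 12) (3 / 2) (by norm_num) (by norm_num) (by norm_num) (by norm_num)
    (by intro n hn hn4; interval_cases n <;> norm_num)
  have l1 := hL 4 w g hs 1 (13 / 204) (9 / 17) (by norm_num) (by norm_num) (by norm_num)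
    (by norm_num) (by intro n hn hn4; interval_cases n <;> norm_num)
  have a1 := hs.add 0 (by norm_num)
  have a2 := hs.add 1 (by norm_num)
  have a3 := hs.add 2 (by norm_num)
  have j3 := hs.jen 3 (by norm_num)
  norm_num at a1 a2 a3 j3
  have hr : 8927 / 10000 ≤ ρ := loc ρ h0 (by exact_mod_cast hρ)
  have hq : 0 < 1 - ρ := by linarith
  have hTh : Th 4 ρ (fun j => w (4 - j)) = ρ ^ 4 * w 0 + 4 * ρ ^ 3 * (1 - ρ) * w 1 +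
      6 * ρ ^ 2 * (1 - ρ) ^ 2 * w 2 + 4 * ρ * (1 - ρ) ^ 3 * w 3 + (1 - ρ) ^ 4 := by
    unfold Th
    have hw := hs.wk
    have b2 : ((Nat.choose 4 2 : ℕ) : ℝ) = 6 := by norm_num [Nat.choose]
    have b3 : ((Nat.choose 4 3 : ℕ) : ℝ) = 4 := by norm_num [Nat.choose]
    simp only [Finset.sum_range_succ, Finset.sum_range_zero, Nat.choose_zero_right,
      Nat.choose_one_right, Nat.choose_self, b2, b3]
    norm_num [hw]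
    ring
  rw [hTh]
  have hρ' : ρ ^ 4 + (1 - ρ / 4) ^ 4 = 1 := by exact_mod_cast hρ
  have hr9 := locU ρ h0 hρ'
  have hmin' : 1 - ρ ^ 4 + 1 / 10000 * min (g 0) (w (4 - 1) - (1 - 1 / ((4 : ℕ) : ℝ))) ≤
      1 - ρ ^ 4 + 1 / 10000 * (w 3 - 3 / 4) := by linarith
  refine hmin'.trans ?_
  refine core (ρ ^ 4) (4 * ρ ^ 3 * (1 - ρ)) (6 * ρ ^ 2 * (1 - ρ) ^ 2) (4 * ρ * (1 - ρ) ^ 3)
    ((1 - ρ) ^ 4) (w 0) (w 1) (w 2) (w 3) (g 0) (g 1) (g 2) (by positivity) ?_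
    ?_ ?_ (by ring) ?_ ?_ h2 hch' l2 l1 a1 a2 (by linarith)
  · have h5 : (1 / 10 : ℝ) ^ 3 ≤ (1 - ρ) ^ 3 := pow_le_pow_left₀ (by norm_num) (by linarith) 3
    have h6 : 4 * (8927 / 10000) * (1 / 10 : ℝ) ^ 3 ≤ 4 * ρ * (1 - ρ) ^ 3 := by gcongr
    norm_num at h6
    linarith
  · have : 6 * ρ ^ 2 * (1 - ρ) ^ 2 - 4 * ρ * (1 - ρ) ^ 3 =
        ρ * (1 - ρ) ^ 2 * (6 * ρ - 4 * (1 - ρ)) := by ring
    have h : 0 ≤ ρ * (1 - ρ) ^ 2 * (6 * ρ - 4 * (1 - ρ)) :=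
      mul_nonneg (by positivity) (by linarith)
    linarith
  · have : 4 * ρ ^ 3 * (1 - ρ) - 6 * ρ ^ 2 * (1 - ρ) ^ 2 =
        ρ ^ 2 * (1 - ρ) * (4 * ρ - 6 * (1 - ρ)) := by ring
    have h : 0 ≤ ρ ^ 2 * (1 - ρ) * (4 * ρ - 6 * (1 - ρ)) :=
      mul_nonneg (by positivity) (by linarith)
    linarith
  · have : 81 / 256 * ρ ^ 4 + 27 / 64 * (4 * ρ ^ 3 * (1 - ρ)) +
        9 / 16 * (6 * ρ ^ 2 * (1 - ρ) ^ 2) + 3 / 4 * (4 * ρ * (1 - ρ) ^ 3) + (1 - ρ) ^ 4 =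
        (1 - ρ / 4) ^ 4 := by ring
    rw [this]; linarith
  · have : 8 / 27 * ρ ^ 4 - 5 / 9 * (4 * ρ ^ 3 * (1 - ρ)) - 1 / 3 * (6 * ρ ^ 2 * (1 - ρ) ^ 2) =
        ρ ^ 2 * ((14 * ρ ^ 2 + 48 * ρ - 54) / 27) := by ring
    rw [this]
    have h5 : (8927 / 10000 : ℝ) ^ 2 ≤ ρ ^ 2 := pow_le_pow_left₀ (by norm_num) hr 2
    have h7 : 2 / 10000 ≤ (14 * ρ ^ 2 + 48 * ρ - 54) / 27 := by
      norm_num at h5
      linarith
    have h6 : (8927 / 10000 : ℝ) ^ 2 * (2 / 10000) ≤ ρ ^ 2 * ((14 * ρ ^ 2 + 48 * ρ - 54) / 27) := by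
      gcongr
    norm_num at h6
    linarith

end Pool.Agent.Q79.XV.P43
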