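import Pool.Agent.Q113.XV.Stm

/-!
# Project XV: the piece `k = 5`, `m = 2` with a gain (after `W408/K5/P52.lean`)
-/

set_option autoImplicit false

namespace Pool.Agent.Q79.XV.P52

open Finset Filter Topology Pool.Agent.W205.K5 Pool.Agent.Q113.XV

/-- localisation of the crossing for `k = 5` -/
lemma loc5 (ρ : ℝ) (h0 : 0 < ρ) (h1 : ρ < 1) (h : ρ ^ 5 + (1 - ρ / 5) ^ 5 = 1) :
    913235 / 1000000 ≤ ρ ∧ ρ ≤ 913236 / 1000000 := by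
  have hP : ρ ^ 4 - 1 + 2 / 5 * ρ - 2 / 25 * ρ ^ 2 + 1 / 125 * ρ ^ 3 - ρ ^ 4 / 3125 = 0 := by
    have e : ρ * (ρ ^ 4 - 1 + 2 / 5 * ρ - 2 / 25 * ρ ^ 2 + 1 / 125 * ρ ^ 3 - ρ ^ 4 / 3125) = 0 := by
      linear_combination h
    rcases mul_eq_zero.1 e with h2 | h2
    · exact absurd h2 h0.ne'
    · exact h2
  have key : ∀ a : ℝ, 0 < a → a < 1 →
      0 < (1 - 1 / 3125) * (a ^ 3 + a ^ 2 * ρ + a * ρ ^ 2 + ρ ^ 3) + 2 / 5 - 2 / 25 * (a + ρ)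
        + 1 / 125 * (a ^ 2 + a * ρ + ρ ^ 2) := by
    intro a ha ha1
    have : 0 < a ^ 3 + a ^ 2 * ρ + a * ρ ^ 2 + ρ ^ 3 := by positivity
    have : 0 < a ^ 2 + a * ρ + ρ ^ 2 := by positivity
    nlinarith
  constructor
  · by_contra hlt
    push Not at hlt
    have hk := key (913235 / 1000000) (by norm_num) (by norm_num)
    have := mul_pos (sub_pos.2 hlt) hk
    nlinarith
  · by_contra hlt
    push Not at hlt
    have hk := key (913236 / 1000000) (by norm_num) (by norm_num)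
    have := mul_pos (sub_pos.2 hlt) hk
    nlinarith

theorem t_P52s : S_LINE → S_CHORD → PIECEs 5 2 := by
  intro hL hC
  refine ⟨1 / 1000, by norm_num, ?_⟩
  intro w g hS h1 h2 ρ h0 hρ1 hρ
  have hmin : min (g 0) (w (5 - 1) - (1 - 1 / ((5 : ℕ) : ℝ))) ≤ 1 := by
    refine (min_le_right _ _).trans ?_
    have := hS.w1 4 (by norm_num)
    norm_num
    linarith
  have hmin' : 1 / 1000 * min (g 0) (w (5 - 1) - (1 - 1 / ((5 : ℕ) : ℝ))) ≤ 1 / 1000 := by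
    linarith
  have hch := hC 5 w g le_rfl hS 2 (by norm_num) (by norm_num) h1 h2
  have k2 : KK 2 = 1 / 2 := by unfold KK; norm_num
  have k3 : KK (2 + 1) = 8 / 9 := by unfold KK; norm_num
  rw [k2] at h1
  rw [k3] at h2
  rw [k2, k3] at hch
  norm_num at hch
  have hl := hL 5 w g hS 1 (1 / 6) (2 / 3) le_rfl (by norm_num) (by norm_num) (by norm_num)
    (by intro n hn1 hn5; interval_cases n <;> norm_num)
  have a0 := hS.add 0 (by norm_num)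
  have a1 := hS.add 1 (by norm_num)
  have a2 := hS.add 2 (by norm_num)
  have a3 := hS.add 3 (by norm_num)
  have j2 := hS.jen 2 (by norm_num)
  have j3 := hS.jen 3 (by norm_num)
  have j4 := hS.jen 4 (by norm_num)
  have w5 := hS.wk
  norm_num at a0 a1 a2 a3 j2 j3 j4
  obtain ⟨la, lb⟩ := loc5 ρ h0 hρ1 (by exact_mod_cast hρ)
  have hq : 0 ≤ 1 - ρ := by linarith
  have hq2 : 1 - ρ ≤ 86765 / 1000000 := by linarith
  obtain ⟨c0, hc0⟩ : ∃ c, c = ρ ^ 5 := ⟨_, rfl⟩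
  obtain ⟨c1, hc1⟩ : ∃ c, c = 5 * ρ ^ 4 * (1 - ρ) := ⟨_, rfl⟩
  obtain ⟨c2, hc2⟩ : ∃ c, c = 10 * ρ ^ 3 * (1 - ρ) ^ 2 := ⟨_, rfl⟩
  obtain ⟨c3, hc3⟩ : ∃ c, c = 10 * ρ ^ 2 * (1 - ρ) ^ 3 := ⟨_, rfl⟩
  obtain ⟨c4, hc4⟩ : ∃ c, c = 5 * ρ * (1 - ρ) ^ 4 := ⟨_, rfl⟩
  obtain ⟨c5, hc5⟩ : ∃ c, c = (1 - ρ) ^ 5 := ⟨_, rfl⟩
  have hsum : c0 + c1 + c2 + c3 + c4 + c5 = 1 := by
    rw [hc0, hc1, hc2, hc3, hc4, hc5]; ring
  have hTh : Th 5 ρ (fun j => w (5 - j)) =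
      c0 * w 0 + c1 * w 1 + c2 * w 2 + c3 * w 3 + c4 * w 4 + c5 * w 5 := by
    rw [hc0, hc1, hc2, hc3, hc4, hc5]
    unfold Th
    simp [Finset.sum_range_succ, Nat.choose]
    ring
  rw [hTh, ← hc0, w5]
  -- bounds on the weights
  have b0 : (913235 / 1000000) ^ 5 ≤ c0 := by
    rw [hc0]; gcongr
  have b1 : c1 ≤ 5 * (913236 / 1000000) ^ 4 * (86765 / 1000000) := by
    rw [hc1]; gcongr
  have b2 : c2 ≤ 10 * (913236 / 1000000) ^ 3 * (86765 / 1000000) ^ 2 := by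
    rw [hc2]; gcongr
  have n4 : 0 ≤ c4 := by rw [hc4]; positivity
  have n34 : 0 ≤ c3 - c4 := by
    have e : c3 - c4 = 5 * ρ * (1 - ρ) ^ 3 * (3 * ρ - 1) := by rw [hc3, hc4]; ring
    rw [e]
    have : 0 ≤ 3 * ρ - 1 := by linarith
    positivity
  have n23 : 0 ≤ c2 - c3 := by
    have e : c2 - c3 = 10 * ρ ^ 2 * (1 - ρ) ^ 2 * (2 * ρ - 1) := by rw [hc2, hc3]; ring
    rw [e]
    have : 0 ≤ 2 * ρ - 1 := by linarith
    positivity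
  have n12 : 0 ≤ c1 - c2 := by
    have e : c1 - c2 = 5 * ρ ^ 3 * (1 - ρ) * (3 * ρ - 2) := by rw [hc1, hc2]; ring
    rw [e]
    have : 0 ≤ 3 * ρ - 2 := by linarith
    positivity
  have n3 : 0 ≤ c3 := by linarith
  have n2 : 0 ≤ c2 := by linarith
  have n0 : 0 ≤ c0 := by rw [hc0]; positivity
  clear hc0 hc1 hc2 hc3 hc4 hc5 hTh hρ
  have p1 := mul_nonneg n4 (show 0 ≤ w 4 - (4 - g 3) by linarith)
  have p2 := mul_nonneg n4 (show 0 ≤ g 2 + w 3 - g 3 by linarith)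
  have p3 := mul_nonneg n34 (show 0 ≤ w 3 - (3 - g 2) by linarith)
  have p4 := mul_nonneg n3 (show 0 ≤ g 1 + w 2 - g 2 by linarith)
  have p5 := mul_nonneg n23 (show 0 ≤ w 2 - (2 - g 1) by linarith)
  have p6 := mul_nonneg n2 (show 0 ≤ g 0 + w 1 - g 1 by linarith)
  have p7 := mul_nonneg n12 (show 0 ≤ w 1 - (4 - g 0) / 7 by linarith)
  have p8 := mul_nonneg n0 (show 0 ≤ w 0 - (1 / 4 * (8 / 9 - g 0) + 8 / 27 * (g 0 - 1 / 2)) * (18 / 7)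
    by linarith)
  have f2 : 0 ≤ c0 / 4 - c1 / 2 - 1 / 1000 := by
    norm_num at b0 b1
    linarith
  have f3 : 0 ≤ c0 * (8 / 27) - 5 / 9 * c1 - c2 / 3 - 1 / 1000 := by
    norm_num at b0 b1 b2
    linarith
  have p9 := mul_nonneg f2 (show 0 ≤ 8 / 9 - g 0 by linarith)
  have p10 := mul_nonneg f3 (show 0 ≤ g 0 - 1 / 2 by linarith)
  have key : 1 - c0 + 1 / 1000 ≤
      c0 * w 0 + c1 * w 1 + c2 * w 2 + c3 * w 3 + c4 * w 4 + c5 * 1 := by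
    nlinarith [p1, p2, p3, p4, p5, p6, p7, p8, p9, p10, hsum]
  linarith

end Pool.Agent.Q79.XV.P52
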